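import Mathlib

/-!
# Strong Roman domination: no bound `c n` with `c < 1` for connected graphs

The graph: the `2 ^ k` Boolean words of length `k`, and for every `i ≤ k`, every word `t` and every
`c < N` one further vertex joined to the words that agree with `t` in the coordinates `≥ i`.
-/

set_option autoImplicit false

namespace Pool.Agent.Results.MP_fc66e6_co.NoConstantBelowOne

open Finset

variable {V : Type} [Fintype V]

open Classical in
/-- `|N(w) ∩ B₀|`: the number of neighbours of `w` with value `0` -/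
noncomputable def zeroNbrs (G : SimpleGraph V) (f : V → ℕ) (w : V) : ℕ :=
  (Finset.univ.filter (fun v => G.Adj w v ∧ f v = 0)).card

open Classical in
/-- `f` is a strong Roman dominating function of `G`: the values are at most `⌈Δ/2⌉ + 1`, and every
vertex `v` with value `0` has a neighbour `w` with value at least `2` (that is, `w ∈ B₂`) and
`f(w) ≥ 1 + ⌈|N(w) ∩ B₀| / 2⌉`. -/
def IsStRDF (G : SimpleGraph V) (f : V → ℕ) : Prop :=
  (∀ v, f v ≤ ⌈(G.maxDegree : ℚ) / 2⌉₊ + 1) ∧
  ∀ v, f v = 0 → ∃ w, G.Adj v w ∧ 2 ≤ f w ∧ 1 + ⌈(zeroNbrs G f w : ℚ) / 2⌉₊ ≤ f w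

/-- The strong Roman domination number: the least weight of a strong Roman dominating function. -/
noncomputable def strongRomanNumber (G : SimpleGraph V) : ℕ :=
  sInf {s | ∃ f : V → ℕ, IsStRDF G f ∧ s = ∑ v, f v}

/-! ### The general saving bound -/

open Classical in
/-- number of strong neighbours -/
noncomputable def strongNbrs (G : SimpleGraph V) (f : V → ℕ) (v : V) : ℕ :=
  (Finset.univ.filter (fun w => G.Adj v w ∧ 1 + ⌈(zeroNbrs G f w : ℚ) / 2⌉₊ ≤ f w)).card

open Classical in
theorem saving (G : SimpleGraph V) (f : V → ℕ) (hf : IsStRDF G f) :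
    2 * Fintype.card V ≤ 2 * ∑ v, f v +
      (Finset.univ.filter (fun v => f v = 0 ∧ strongNbrs G f v = 1)).card := by
  -- strong vertices
  set S : Finset V := Finset.univ.filter (fun w => 1 + ⌈(zeroNbrs G f w : ℚ) / 2⌉₊ ≤ f w) with hS
  have hstr : ∀ w ∈ S, zeroNbrs G f w + 2 ≤ 2 * f w := by
    intro w hw
    rw [hS, Finset.mem_filter] at hw
    have h1 : (zeroNbrs G f w : ℚ) / 2 ≤ (⌈(zeroNbrs G f w : ℚ) / 2⌉₊ : ℚ) := Nat.le_ceil _
    have h2 : ((1 + ⌈(zeroNbrs G f w : ℚ) / 2⌉₊ : ℕ) : ℚ) ≤ (f w : ℚ) := by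
      exact_mod_cast hw.2
    push_cast at h2
    have h3 : (zeroNbrs G f w : ℚ) + 2 ≤ 2 * (f w : ℚ) := by linarith
    exact_mod_cast h3
  -- double counting
  have hdc : ∑ w ∈ S, zeroNbrs G f w =
      ∑ v ∈ Finset.univ.filter (fun v => f v = 0), strongNbrs G f v := by
    have e1 : ∀ w, zeroNbrs G f w =
        ∑ v ∈ Finset.univ.filter (fun v => f v = 0), if G.Adj w v then 1 else 0 := by
      intro w
      unfold zeroNbrs
      rw [Finset.card_filter, Finset.sum_filter]
      refine Finset.sum_congr rfl fun v _ => ?_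
      by_cases h1 : G.Adj w v <;> by_cases h2 : f v = 0 <;> simp [h1, h2]
    have e2 : ∀ v, strongNbrs G f v = ∑ w ∈ S, if G.Adj w v then 1 else 0 := by
      intro v
      unfold strongNbrs
      rw [Finset.card_filter, hS, Finset.sum_filter]
      refine Finset.sum_congr rfl fun w _ => ?_
      rw [G.adj_comm v w]
      by_cases h1 : G.Adj w v <;>
        by_cases h2 : 1 + ⌈(zeroNbrs G f w : ℚ) / 2⌉₊ ≤ f w <;> simp [h1, h2]
    simp_rw [e1, e2]
    rw [Finset.sum_comm]
  -- every zero vertex has a strong neighbour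
  have hpos : ∀ v ∈ Finset.univ.filter (fun v => f v = 0), 2 ≤ strongNbrs G f v +
      if strongNbrs G f v = 1 then 1 else 0 := by
    intro v hv
    rw [Finset.mem_filter] at hv
    obtain ⟨w, hw1, -, hw3⟩ := hf.2 v hv.2
    have : 0 < strongNbrs G f v := by
      unfold strongNbrs
      rw [Finset.card_pos]
      exact ⟨w, by simp [hw1, hw3]⟩
    split_ifs <;> omega
  have h1 : ∑ v ∈ Finset.univ.filter (fun v => f v = 0), 2 ≤
      ∑ v ∈ Finset.univ.filter (fun v => f v = 0), (strongNbrs G f v +
      if strongNbrs G f v = 1 then 1 else 0) := Finset.sum_le_sum hpos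
  rw [Finset.sum_add_distrib, ← hdc, Finset.sum_const, smul_eq_mul] at h1
  have h2 : (∑ v ∈ Finset.univ.filter (fun v => f v = 0),
      if strongNbrs G f v = 1 then 1 else 0) =
      (Finset.univ.filter (fun v => f v = 0 ∧ strongNbrs G f v = 1)).card := by
    rw [Finset.card_filter, Finset.sum_filter]
    refine Finset.sum_congr rfl fun v _ => ?_
    by_cases h1 : f v = 0 <;> by_cases h2 : strongNbrs G f v = 1 <;> simp [h1, h2]
  rw [h2] at h1
  -- the weight
  have h3 : ∑ w ∈ S, zeroNbrs G f w + 2 * Fintype.card V ≤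
      2 * ∑ v, f v + (Finset.univ.filter (fun v => f v = 0)).card * 2 := by
    have e3 : ∀ v : V, (if v ∈ S then zeroNbrs G f v else 0) + 2 ≤
        2 * f v + (if f v = 0 then 2 else 0) := by
      intro v
      by_cases hv : v ∈ S
      · have := hstr v hv
        rw [if_pos hv]
        split_ifs <;> omega
      · rw [if_neg hv]
        split_ifs <;> omega
    have e4 := Finset.sum_le_sum (fun v (_ : v ∈ (Finset.univ : Finset V)) => e3 v)
    rw [Finset.sum_add_distrib, Finset.sum_add_distrib, ← Finset.mul_sum] at e4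
    rw [Finset.sum_ite_mem, Finset.univ_inter, ← Finset.sum_filter, Finset.sum_const,
      Finset.sum_const, smul_eq_mul, smul_eq_mul, Finset.card_univ] at e4
    omega
  omega

/-! ### Counting words -/

section words

variable {k : ℕ}

/-- the words of `Z` agreeing with `t` in the coordinates `≥ i` -/
def cnt (Z : Finset (Fin k → Bool)) (i : ℕ) (t : Fin k → Bool) : ℕ :=
  (Z.filter (fun z => ∀ j : Fin k, i ≤ j.val → z j = t j)).card

/-- flip coordinate `i` -/
def flip (i : Fin k) (t : Fin k → Bool) : Fin k → Bool := Function.update t i (!t i)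

theorem flip_flip (i : Fin k) (t : Fin k → Bool) : flip i (flip i t) = t := by
  unfold flip
  simp

theorem flip_apply_ne (i : Fin k) (t : Fin k → Bool) (j : Fin k) (h : j ≠ i) :
    flip i t j = t j := by
  unfold flip
  rw [Function.update_of_ne h]

theorem flip_apply_self (i : Fin k) (t : Fin k → Bool) : flip i t i = !t i := by
  unfold flip
  rw [Function.update_self]

theorem cnt_succ (Z : Finset (Fin k → Bool)) (i : Fin k) (t : Fin k → Bool) :
    cnt Z (i.val + 1) t = cnt Z i.val t + cnt Z i.val (flip i t) := by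
  unfold cnt
  rw [← Finset.card_union_of_disjoint]
  · congr 1
    ext z
    simp only [Finset.mem_filter, Finset.mem_union]
    constructor
    · rintro ⟨hz, h⟩
      by_cases hi : z i = t i
      · left
        refine ⟨hz, fun j hj => ?_⟩
        rcases eq_or_ne j i with rfl | hne
        · exact hi
        · exact h j (by have : j.val ≠ i.val := fun e => hne (Fin.ext e); omega)
      · right
        refine ⟨hz, fun j hj => ?_⟩
        rcases eq_or_ne j i with rfl | hne
        · rw [flip_apply_self]
          cases h1 : z j <;> cases h2 : t j <;> simp_all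
        · rw [flip_apply_ne _ _ _ hne]
          exact h j (by have : j.val ≠ i.val := fun e => hne (Fin.ext e); omega)
    · rintro (⟨hz, h⟩ | ⟨hz, h⟩)
      · exact ⟨hz, fun j hj => h j (by omega)⟩
      · refine ⟨hz, fun j hj => ?_⟩
        rw [h j (by omega), flip_apply_ne]
        rintro rfl
        omega
  · rw [Finset.disjoint_left]
    intro z h1 h2
    rw [Finset.mem_filter] at h1 h2
    have e1 := h1.2 i le_rfl
    have e2 := h2.2 i le_rfl
    rw [flip_apply_self, e1] at e2
    cases h : t i <;> simp [h] at e2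

theorem cnt_zero (Z : Finset (Fin k → Bool)) (t : Fin k → Bool) :
    cnt Z 0 t = if t ∈ Z then 1 else 0 := by
  unfold cnt
  have : Z.filter (fun z => ∀ j : Fin k, 0 ≤ j.val → z j = t j) = Z.filter (fun z => z = t) := by
    apply Finset.filter_congr
    intro z _
    constructor
    · intro h
      exact funext fun j => h j (Nat.zero_le _)
    · rintro rfl j _
      rfl
  rw [this, Finset.filter_eq']
  split_ifs <;> simp

/-- number of words `t` whose block contains no word of `Z` -/
def emp (Z : Finset (Fin k → Bool)) (i : ℕ) : ℕ :=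
  (Finset.univ.filter (fun t => cnt Z i t = 0)).card

/-- number of words `t` whose block contains exactly one word of `Z` -/
def one (Z : Finset (Fin k → Bool)) (i : ℕ) : ℕ :=
  (Finset.univ.filter (fun t => cnt Z i t = 1)).card

theorem one_succ (Z : Finset (Fin k → Bool)) (i : Fin k) :
    one Z (i.val + 1) + 2 * emp Z (i.val + 1) ≤ 2 * emp Z i.val := by
  set X : Finset (Fin k → Bool) :=
    Finset.univ.filter (fun t => cnt Z i.val t = 0 ∧ cnt Z i.val (flip i t) = 1) with hX
  have h1 : Finset.univ.filter (fun t => cnt Z (i.val + 1) t = 1) ⊆ X ∪ X.image (flip i) := by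
    intro t ht
    rw [Finset.mem_filter, cnt_succ] at ht
    rw [Finset.mem_union]
    have : (cnt Z i.val t = 0 ∧ cnt Z i.val (flip i t) = 1) ∨
        (cnt Z i.val t = 1 ∧ cnt Z i.val (flip i t) = 0) := by omega
    rcases this with h | h
    · left
      rw [hX, Finset.mem_filter]
      exact ⟨Finset.mem_univ _, h⟩
    · right
      rw [Finset.mem_image]
      refine ⟨flip i t, ?_, flip_flip i t⟩
      rw [hX, Finset.mem_filter, flip_flip]
      exact ⟨Finset.mem_univ _, h.2, h.1⟩
  have h2 : one Z (i.val + 1) ≤ 2 * X.card := by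
    unfold one
    calc _ ≤ (X ∪ X.image (flip i)).card := Finset.card_le_card h1
      _ ≤ X.card + (X.image (flip i)).card := Finset.card_union_le _ _
      _ ≤ X.card + X.card := by
        have := Finset.card_image_le (s := X) (f := flip i)
        omega
      _ = 2 * X.card := by ring
  have h3 : X.card + emp Z (i.val + 1) ≤ emp Z i.val := by
    unfold emp
    rw [← Finset.card_union_of_disjoint]
    · apply Finset.card_le_card
      intro t ht
      rw [Finset.mem_union] at ht
      rw [Finset.mem_filter]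
      refine ⟨Finset.mem_univ _, ?_⟩
      rcases ht with ht | ht
      · rw [hX, Finset.mem_filter] at ht
        exact ht.2.1
      · rw [Finset.mem_filter, cnt_succ] at ht
        omega
    · rw [Finset.disjoint_left]
      intro t ht1 ht2
      rw [hX, Finset.mem_filter] at ht1
      rw [Finset.mem_filter, cnt_succ] at ht2
      omega
  omega

theorem sum_one (Z : Finset (Fin k → Bool)) :
    ∀ m ≤ k, ∑ i ∈ Finset.range (m + 1), one Z i + 2 * emp Z m ≤ 2 * 2 ^ k := by
  intro m
  induction m with
  | zero =>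
    intro _
    rw [zero_add, Finset.sum_range_one]
    have h1 : one Z 0 + emp Z 0 ≤ 2 ^ k := by
      unfold one emp
      rw [← Finset.card_union_of_disjoint]
      · refine (Finset.card_le_univ _).trans ?_
        simp
      · rw [Finset.disjoint_left]
        intro t ht1 ht2
        rw [Finset.mem_filter] at ht1 ht2
        omega
    omega
  | succ m ih =>
    intro hm
    have h1 := ih (by omega)
    have h2 := one_succ Z ⟨m, by omega⟩
    simp only at h2
    rw [Finset.sum_range_succ]
    omega

end words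

/-! ### The graph -/

/-- vertices of the graph: words, and triples `(i, t, c)` -/
abbrev Vtx (k N : ℕ) : Type := (Fin k → Bool) ⊕ (Fin (k + 1) × (Fin k → Bool) × Fin N)

/-- adjacency of a word and a triple -/
def inc {k N : ℕ} (a : Fin k → Bool) (b : Fin (k + 1) × (Fin k → Bool) × Fin N) : Prop :=
  ∀ j : Fin k, b.1.val ≤ j.val → a j = b.2.1 j

/-- the graph -/
def gr (k N : ℕ) : SimpleGraph (Vtx k N) where
  Adj x y := match x, y with
    | Sum.inl a, Sum.inr b => inc a b
    | Sum.inr b, Sum.inl a => inc a b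
    | _, _ => False
  symm := ⟨by
    rintro (a | b) (a' | b') h
    · exact h
    · exact h
    · exact h
    · exact h⟩
  loopless := ⟨by
    rintro (a | b) h
    · exact h
    · exact h⟩

theorem gr_connected (k N : ℕ) (hN : 0 < N) : (gr k N).Connected := by
  have c0 : Fin k → Bool := fun _ => false
  set top : Vtx k N := Sum.inr (Fin.last k, (fun _ => false), ⟨0, hN⟩) with htop
  have h1 : ∀ a : Fin k → Bool, (gr k N).Adj (Sum.inl a) top := by
    intro a
    change inc a _
    intro j hj
    exfalso
    have := j.2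
    simp only [Fin.val_last] at hj
    omega
  have h2 : ∀ x, (gr k N).Reachable x top := by
    rintro (a | b)
    · exact (h1 a).reachable
    · have h3 : (gr k N).Adj (Sum.inr b) (Sum.inl b.2.1) := by
        change inc b.2.1 b
        intro j _
        rfl
      exact h3.reachable.trans (h1 _).reachable
  have : Nonempty (Vtx k N) := ⟨top⟩
  exact SimpleGraph.Connected.mk (fun x y => (h2 x).trans (h2 y).symm)

theorem card_vtx (k N : ℕ) : Fintype.card (Vtx k N) = 2 ^ k + (k + 1) * (2 ^ k * N) := by
  simp [Vtx]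

open Classical in
theorem strong_bound (k N : ℕ) (f : Vtx k N → ℕ) :
    (Finset.univ.filter (fun v => f v = 0 ∧ strongNbrs (gr k N) f v = 1)).card ≤
      2 ^ k + N * (2 * 2 ^ k) := by
  set Z : Finset (Fin k → Bool) := Finset.univ.filter
    (fun a => 1 + ⌈(zeroNbrs (gr k N) f (Sum.inl a) : ℚ) / 2⌉₊ ≤ f (Sum.inl a)) with hZ
  -- strong neighbours of a triple
  have hst : ∀ b : Fin (k + 1) × (Fin k → Bool) × Fin N,
      strongNbrs (gr k N) f (Sum.inr b) = cnt Z b.1.val b.2.1 := by
    intro b
    unfold strongNbrs cnt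
    rw [hZ, Finset.filter_filter]
    symm
    refine Finset.card_bij (fun a _ => Sum.inl a) ?_ ?_ ?_
    · intro a ha
      rw [Finset.mem_filter] at ha ⊢
      exact ⟨Finset.mem_univ _, ha.2.2, ha.2.1⟩
    · intro a _ a' _ h
      exact Sum.inl.inj h
    · rintro (a | b') hb
      · rw [Finset.mem_filter] at hb
        refine ⟨a, ?_, rfl⟩
        rw [Finset.mem_filter]
        exact ⟨Finset.mem_univ _, hb.2.2, hb.2.1⟩
      · rw [Finset.mem_filter] at hb
        exact absurd hb.2.1 id
  -- cover
  have hcov : Finset.univ.filter (fun v => f v = 0 ∧ strongNbrs (gr k N) f v = 1) ⊆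
      (Finset.univ : Finset (Fin k → Bool)).map ⟨Sum.inl, Sum.inl_injective⟩ ∪
      (Finset.univ.filter (fun b : Fin (k + 1) × (Fin k → Bool) × Fin N =>
        cnt Z b.1.val b.2.1 = 1)).map ⟨Sum.inr, Sum.inr_injective⟩ := by
    rintro (a | b) hv
    · rw [Finset.mem_union]
      left
      rw [Finset.mem_map]
      exact ⟨a, Finset.mem_univ _, rfl⟩
    · rw [Finset.mem_union]
      right
      rw [Finset.mem_filter, hst] at hv
      rw [Finset.mem_map]
      refine ⟨b, ?_, rfl⟩
      rw [Finset.mem_filter]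
      exact ⟨Finset.mem_univ _, hv.2.2⟩
  have hcount : (Finset.univ.filter (fun b : Fin (k + 1) × (Fin k → Bool) × Fin N =>
        cnt Z b.1.val b.2.1 = 1)).card = N * ∑ i ∈ Finset.range (k + 1), one Z i := by
    rw [Finset.card_filter, ← Finset.univ_product_univ, Finset.sum_product]
    have : ∀ i : Fin (k + 1), ∑ y : (Fin k → Bool) × Fin N,
        (if cnt Z (i, y).1.val (i, y).2.1 = 1 then 1 else 0) = N * one Z i.val := by
      intro i
      rw [← Finset.univ_product_univ, Finset.sum_product, one, Finset.card_filter,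
        Finset.mul_sum]
      refine Finset.sum_congr rfl fun x _ => ?_
      by_cases hx : cnt Z i.val x = 1 <;> simp [hx]
    rw [Finset.sum_congr rfl (fun i _ => this i), ← Finset.mul_sum]
    congr 1
    rw [Finset.sum_range]
  have h4 := sum_one Z k le_rfl
  calc _ ≤ _ := Finset.card_le_card hcov
    _ ≤ _ := Finset.card_union_le _ _
    _ = 2 ^ k + N * ∑ i ∈ Finset.range (k + 1), one Z i := by
      rw [Finset.card_map, Finset.card_map, hcount]
      simp
    _ ≤ 2 ^ k + N * (2 * 2 ^ k) := by
      have : ∑ i ∈ Finset.range (k + 1), one Z i ≤ 2 * 2 ^ k := by omega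
      exact Nat.add_le_add_left (Nat.mul_le_mul_left N this) _

theorem lower (k N : ℕ) (f : Vtx k N → ℕ) (hf : IsStRDF (gr k N) f) :
    2 * (2 ^ k + (k + 1) * (2 ^ k * N)) ≤ 2 * ∑ v, f v + (2 ^ k + N * (2 * 2 ^ k)) := by
  have h1 := saving (gr k N) f hf
  have h2 := strong_bound k N f
  rw [card_vtx] at h1
  omega

theorem lower_number (k N : ℕ) :
    2 * (2 ^ k + (k + 1) * (2 ^ k * N)) ≤
      2 * strongRomanNumber (gr k N) + (2 ^ k + N * (2 * 2 ^ k)) := by
  have hne : {s | ∃ f : Vtx k N → ℕ, IsStRDF (gr k N) f ∧ s = ∑ v, f v}.Nonempty := by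
    refine ⟨∑ _v : Vtx k N, 1, fun _ => 1, ⟨fun v => Nat.le_add_left 1 _, fun v hv => ?_⟩, rfl⟩
    exact absurd hv one_ne_zero
  obtain ⟨f, hf, hs⟩ := Nat.sInf_mem hne
  have := lower k N f hf
  unfold strongRomanNumber
  rw [hs]
  exact this

/-- For every real `c < 1` there is a connected graph of order `n ≥ 3` whose strong Roman domination
number exceeds `c n`. In particular (`c = 6/7`) the bound `6n/7` fails for connected graphs. -/
theorem result : ∀ c : ℝ, c < 1 → ∃ (V : Type) (_ : Fintype V) (G : SimpleGraph V),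
    G.Connected ∧ 3 ≤ Fintype.card V ∧
    c * (Fintype.card V : ℝ) < (strongRomanNumber G : ℝ) := by
  intro c hc
  obtain ⟨k, hk⟩ := exists_nat_gt (2 / (1 - c))
  have hc' : 0 < 1 - c := by linarith
  have hk1 : 2 < (k : ℝ) * (1 - c) := by
    rwa [div_lt_iff₀ hc'] at hk
  refine ⟨Vtx (k + 1) 1, inferInstance, gr (k + 1) 1, gr_connected _ _ one_pos, ?_, ?_⟩
  · rw [card_vtx]
    have : 1 ≤ 2 ^ k := Nat.one_le_two_pow
    rw [pow_succ]
    nlinarith
  · have h1 := lower_number (k + 1) 1
    have h2 : (2 : ℝ) * (2 ^ (k + 1) + ((k : ℝ) + 1 + 1) * (2 ^ (k + 1) * 1)) ≤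
        2 * (strongRomanNumber (gr (k + 1) 1) : ℝ) + (2 ^ (k + 1) + 1 * (2 * 2 ^ (k + 1))) := by
      exact_mod_cast h1
    rw [card_vtx]
    push_cast
    have h3 : (0 : ℝ) < 2 ^ (k + 1) := by positivity
    set P : ℝ := 2 ^ (k + 1) with hP
    -- need c * (P + (k+2) P) < P + (k+2) P - 3/2 P
    have h4 : 3 / 2 * P < (1 - c) * (P + ((k : ℝ) + 2) * P) := by
      have : 3 / 2 < (1 - c) * (1 + ((k : ℝ) + 2)) := by nlinarith
      nlinarith
    nlinarith

end Pool.Agent.Results.MP_fc66e6_co.NoConstantBelowOne
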